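import Pool.Agent.H3.WN.Fin

/-!
# Local autocorrelations of completely multiplicative functions (MP_c59857_nt): the laws at a point
and at its multiples, finite form
-/

set_option autoImplicit false

namespace Pool.Agent.H3.WN

open Finset Pool.Agent.H6.N4D Pool.Agent.H93 Pool.Agent.H93.ES Pool.Agent.H93.DE
  Pool.Agent.H28.NW Pool.Agent.H87.QP

/-- functionals of the first `H` autocorrelations: Lipschitz and bounded by `B` on the sequences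
bounded by one -/
structure LpF (H : ℕ) (B : ℝ) (F : (ℕ → ℝ) → ℝ) : Prop where
  lp : ∀ r r' : ℕ → ℝ, (∀ k, |r k| ≤ 1) → (∀ k, |r' k| ≤ 1) →
    |F r - F r'| ≤ ∑ k ∈ Icc 1 H, |r k - r' k|
  bd : ∀ r : ℕ → ℝ, (∀ k, |r k| ≤ 1) → |F r| ≤ B

/-- WNA. The law of the local autocorrelations does not increase under dilation by the primes of
a good level, for Lipschitz functionals. -/
def T_WNA : Prop := ∀ (H W₀ : ℕ) (B ε : ℝ), 0 < ε → ∃ W₁ T₀ : ℕ, ∀ T₁ : ℕ, ∃ X₀ : ℝ,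
  ∀ (X : Wn) (f : ℕ → ℝ), X₀ ≤ X.L → Dl f → ∃ w, W₀ ≤ w ∧ w ≤ W₁ ∧
  ∀ T, T₀ ≤ T → T ≤ T₁ → ∀ F : (ℕ → ℝ) → ℝ, LpF H B F →
    ∑ q ∈ EB.QQ w, 1 / (q : ℝ) * wlg X (fun n => F (fun k => rh f (T / q) n k)) ≤
      ∑ q ∈ EB.QQ w, 1 / (q : ℝ) * wlg X (fun n => F (fun k => rh f T n (q * k))) + ε * X.L

lemma tq_le3 {f : ℕ → ℝ} (hf : Dl f) {q S : ℕ} (hq : 1 ≤ q) (hqS : q ≤ S) (h n : ℕ) :
    |tq f q S h n| ≤ 3 := Pool.Agent.H3.QP.tq_le hf.pm h n hq hqS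

/-- the mean of the tests of long windows -/
theorem tq_mean {f : ℕ → ℝ} (hf : Dl f) (X : Wn) {q S T : ℕ} (hq : 1 ≤ q) (hqS : q ≤ S)
    (hST : S ≤ T) (h : ℕ) {δ : ℝ} (hδ : 0 < δ) :
    wlg X (fun n => |tq f q T h n|) ≤ 1 / (2 * δ) * wlg X (fun n => tq f q S h n ^ 2) +
      (δ / 2 + 6 * S / T) * (1 + X.L) + 9 * EB.hs T := by
  have hT : (0 : ℝ) < T := by exact_mod_cast (by omega : 0 < T)
  have h1 : wlg X (fun n => |tq f q T h n|) ≤
      wlg X (fun n => (∑ u ∈ range T, |tq f q S h (n + u)|) / T + 6 * S / T) :=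
    wlg_mono fun n _ => tq_long hf hq hqS hST n h
  have h2 : wlg X (fun n => (∑ u ∈ range T, |tq f q S h (n + u)|) / T) ≤
      wlg X (fun n => |tq f q S h n|) + 9 * EB.hs T := by
    have e : wlg X (fun n => (∑ u ∈ range T, |tq f q S h (n + u)|) / T) =
        (∑ u ∈ range T, wlg X (fun n => |tq f q S h (n + u)|)) / T := by
      rw [div_eq_inv_mul, ← wlg_sum, ← wlg_mul]
      congr 1
      funext n
      rw [div_eq_inv_mul]
    rw [e, div_le_iff₀ hT]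
    calc ∑ u ∈ range T, wlg X (fun n => |tq f q S h (n + u)|)
        ≤ ∑ _u ∈ range T, (wlg X (fun n => |tq f q S h n|) + 9 * EB.hs T) := by
          refine sum_le_sum fun u hu => ?_
          rw [mem_range] at hu
          have h3 := wlg_shift X u (fun n => |tq f q S h n|) (c := 3) fun n => by
            rw [abs_abs]
            exact tq_le3 hf hq hqS h n
          have h4 := EB.hs_mono (i := u) (j := T) hu.le
          have h5 := (abs_le.1 h3).2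
          linarith
      _ = _ := by
          rw [sum_const, card_range, nsmul_eq_mul]
          ring
  have h3 : wlg X (fun n => |tq f q S h n|) ≤
      wlg X (fun n => δ / 2 + 1 / (2 * δ) * tq f q S h n ^ 2) := by
    refine wlg_mono fun n _ => ?_
    have h4 : 0 ≤ (|tq f q S h n| - δ) ^ 2 := sq_nonneg _
    have h5 := sq_abs (tq f q S h n)
    have e : δ / 2 + 1 / (2 * δ) * tq f q S h n ^ 2 - |tq f q S h n| =
        (|tq f q S h n| - δ) ^ 2 / (2 * δ) := by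
      field_simp
      rw [← h5]
      ring
    have h6 : 0 ≤ (|tq f q S h n| - δ) ^ 2 / (2 * δ) := by positivity
    linarith
  rw [wlg_add, wlg_const] at h1 h3
  rw [wlg_mul] at h3
  have h4 := wlg_one_le X
  have h5 : 6 * (S : ℝ) / T * wlg X (fun _ => 1) ≤ 6 * S / T * (1 + X.L) :=
    mul_le_mul_of_nonneg_left h4 (by positivity)
  have h6 : δ / 2 * wlg X (fun _ => 1) ≤ δ / 2 * (1 + X.L) :=
    mul_le_mul_of_nonneg_left h4 (by positivity)
  nlinarith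

theorem pf_WNA (hG : T_GLV) (hQ : T_QSU) : T_WNA := by
  intro H W₀ B ε hε
  obtain ⟨W, hW0, hW⟩ := hQ
  have hHW : (0 : ℝ) < ((H : ℝ) + 1) * W := by positivity
  set δ : ℝ := ε / (8 * (((H : ℝ) + 1) * W)) with hδ
  have hδ0 : 0 < δ := by positivity
  obtain ⟨W₁, X₁, hG⟩ := hG H W₀ (δ * ε / 4) (by positivity)
  obtain ⟨T₀, hT₀⟩ := exists_nat_gt (96 * (((H : ℝ) + 1) * W) * 2 ^ W₁ / ε)
  refine ⟨W₁, max T₀ (2 ^ W₁), ?_⟩
  intro T₁
  refine ⟨|X₁| + 1 + 72 * (((H : ℝ) + 1) * W) * (1 + T₁) / ε +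
    16 * W * (|B| * (3 * (1 + 2 ^ W₁) + 2)) / ε, ?_⟩
  intro X f hX hf
  have hp1 : 0 ≤ 72 * (((H : ℝ) + 1) * W) * (1 + (T₁ : ℝ)) / ε := by positivity
  have hp2 : 0 ≤ 16 * W * (|B| * (3 * (1 + 2 ^ W₁) + 2)) / ε := by positivity
  have hX1 : X₁ ≤ X.L := by linarith [le_abs_self X₁, abs_nonneg X₁]
  have hL1 : 1 ≤ X.L := by linarith [abs_nonneg X₁]
  obtain ⟨w, hw0, hw1, hG⟩ := hG X f hX1 hf.pm
  refine ⟨w, hw0, hw1, ?_⟩
  intro T hT0 hT1 F hF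
  have hTW : 2 ^ W₁ ≤ T := (le_max_right _ _).trans hT0
  have hTT : T₀ ≤ T := (le_max_left _ _).trans hT0
  have hTr : (0 : ℝ) < T := by
    have : 0 < 2 ^ W₁ := by positivity
    exact_mod_cast lt_of_lt_of_le this hTW
  have hwW : 2 ^ w ≤ 2 ^ W₁ := Nat.pow_le_pow_right (by norm_num) hw1
  have hS : ((2 ^ w : ℕ) : ℝ) ≤ 2 ^ W₁ := by exact_mod_cast hwW
  have hqf : ∀ q ∈ EB.QQ w, q.Prime ∧ 1 ≤ q ∧ q ≤ 2 ^ w := by
    intro q hq
    obtain ⟨h1, h2, _⟩ := Pool.Agent.H40.ES.QQ_facts hq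
    unfold EB.QQ at hq
    rw [mem_filter] at hq
    exact ⟨hq.2, h1, h2⟩
  -- one prime
  have hone : ∀ q ∈ EB.QQ w, wlg X (fun n => F (fun k => rh f (T / q) n k)) ≤
      wlg X (fun n => F (fun k => rh f T n (q * k))) +
        (∑ k ∈ Icc 1 H, (1 / (2 * δ) * wlg X (fun n => tq f q (2 ^ w) k n ^ 2) +
          (δ / 2 + 10 * 2 ^ W₁ / T) * (1 + X.L) + 9 * EB.hs T₁)) +
        2 * (|B| * (3 * (1 + 2 ^ W₁) + 2)) := by
    intro q hq
    obtain ⟨hqp, hq1, hq2⟩ := hqf q hq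
    have hqT : q ≤ T := hq2.trans (hwW.trans hTW)
    have hqr : (q : ℝ) ≤ 2 ^ W₁ := by exact_mod_cast hq2.trans hwW
    have hB : ∀ n, |F (fun k => rh f (T / q) n k)| ≤ |B| := fun n =>
      (hF.bd _ fun k => rh_le hf _ _ _).trans (le_abs_self B)
    have h1 := wlg_div X q hq1 (fun n => F (fun k => rh f (T / q) n k)) hB
    have h2 : EB.hs q ≤ 1 + 2 ^ W₁ := by
      refine (EB.hs_le q).trans ?_
      have h3 : Real.log q ≤ q := (Real.log_le_sub_one_of_pos (by exact_mod_cast hq1)).trans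
        (by linarith)
      linarith
    have h3 : 2 * (|B| * (3 * EB.hs q + 2)) ≤ 2 * (|B| * (3 * (1 + 2 ^ W₁) + 2)) := by
      have := abs_nonneg B
      gcongr
    have h4 : wlg X (fun n => F (fun k => rh f (T / q) (n / q) k)) ≤
        wlg X (fun n => F (fun k => rh f T n (q * k)) +
          ∑ k ∈ Icc 1 H, (|tq f q T k n| + 4 * q / T)) := by
      refine wlg_mono fun n _ => ?_
      have h5 := hF.lp (fun k => rh f (T / q) (n / q) k) (fun k => rh f T n (q * k))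
        (fun k => rh_le hf _ _ _) (fun k => rh_le hf _ _ _)
      have h6 : ∑ k ∈ Icc 1 H, |rh f (T / q) (n / q) k - rh f T n (q * k)| ≤
          ∑ k ∈ Icc 1 H, (|tq f q T k n| + 4 * q / T) :=
        sum_le_sum fun k _ => dil hf hqp hqT n k
      linarith [(abs_le.1 h5).2]
    rw [wlg_add, wlg_sum] at h4
    have h5 : ∑ k ∈ Icc 1 H, wlg X (fun n => |tq f q T k n| + 4 * q / T) ≤
        ∑ k ∈ Icc 1 H, (1 / (2 * δ) * wlg X (fun n => tq f q (2 ^ w) k n ^ 2) +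
          (δ / 2 + 10 * 2 ^ W₁ / T) * (1 + X.L) + 9 * EB.hs T₁) := by
      refine sum_le_sum fun k _ => ?_
      rw [wlg_add, wlg_const]
      have h6 := tq_mean hf X hq1 hq2 (hwW.trans hTW) k hδ0
      have h7 : 4 * (q : ℝ) / T * wlg X (fun _ => 1) ≤ 4 * 2 ^ W₁ / T * (1 + X.L) := by
        have h8 := wlg_one_le X
        have h9 : 0 ≤ wlg X (fun _ => 1) := wlg_nonneg fun _ _ => zero_le_one
        gcongr
      have h8 : 6 * ((2 ^ w : ℕ) : ℝ) / T ≤ 6 * 2 ^ W₁ / T := by gcongr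
      have h9 : (δ / 2 + 6 * ((2 ^ w : ℕ) : ℝ) / T) * (1 + X.L) ≤
          (δ / 2 + 6 * 2 ^ W₁ / T) * (1 + X.L) := by
        apply mul_le_mul_of_nonneg_right _ (by linarith)
        linarith
      have h10 := EB.hs_mono (i := T) (j := T₁) hT1
      have e : (δ / 2 + 10 * 2 ^ W₁ / (T : ℝ)) * (1 + X.L) =
          (δ / 2 + 6 * 2 ^ W₁ / T) * (1 + X.L) + 4 * 2 ^ W₁ / T * (1 + X.L) := by
        ring
      linarith
    linarith [(abs_le.1 h1).1]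
  -- all primes
  have hall : ∑ q ∈ EB.QQ w, 1 / (q : ℝ) * wlg X (fun n => F (fun k => rh f (T / q) n k)) ≤
      ∑ q ∈ EB.QQ w, 1 / (q : ℝ) * wlg X (fun n => F (fun k => rh f T n (q * k))) +
      (1 / (2 * δ) * ∑ k ∈ Icc 1 H, wlg X (fun n => ∑ q ∈ EB.QQ w, 1 / (q : ℝ) *
        tq f q (2 ^ w) k n ^ 2) +
      (∑ q ∈ EB.QQ w, 1 / (q : ℝ)) * (H * ((δ / 2 + 10 * 2 ^ W₁ / T) * (1 + X.L) +
        9 * EB.hs T₁) + 2 * (|B| * (3 * (1 + 2 ^ W₁) + 2)))) := by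
    calc ∑ q ∈ EB.QQ w, 1 / (q : ℝ) * wlg X (fun n => F (fun k => rh f (T / q) n k))
        ≤ ∑ q ∈ EB.QQ w, 1 / (q : ℝ) * (wlg X (fun n => F (fun k => rh f T n (q * k))) +
        (∑ k ∈ Icc 1 H, (1 / (2 * δ) * wlg X (fun n => tq f q (2 ^ w) k n ^ 2) +
          (δ / 2 + 10 * 2 ^ W₁ / T) * (1 + X.L) + 9 * EB.hs T₁)) +
        2 * (|B| * (3 * (1 + 2 ^ W₁) + 2))) := by
          refine sum_le_sum fun q hq => ?_
          exact mul_le_mul_of_nonneg_left (hone q hq) (by positivity)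
      _ = _ := by
          have e1 : ∑ k ∈ Icc 1 H, wlg X (fun n => ∑ q ∈ EB.QQ w, 1 / (q : ℝ) *
              tq f q (2 ^ w) k n ^ 2) =
              ∑ q ∈ EB.QQ w, 1 / (q : ℝ) * ∑ k ∈ Icc 1 H,
                wlg X (fun n => tq f q (2 ^ w) k n ^ 2) := by
            rw [sum_congr rfl fun k _ => wlg_sum X (EB.QQ w) (fun q n => 1 / (q : ℝ) *
              tq f q (2 ^ w) k n ^ 2), sum_comm]
            refine sum_congr rfl fun q _ => ?_
            rw [mul_sum]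
            refine sum_congr rfl fun k _ => ?_
            rw [wlg_mul]
          rw [e1, mul_sum, sum_mul, ← sum_add_distrib, ← sum_add_distrib]
          refine sum_congr rfl fun q _ => ?_
          have e2 : ∑ k ∈ Icc 1 H, (1 / (2 * δ) * wlg X (fun n => tq f q (2 ^ w) k n ^ 2) +
              (δ / 2 + 10 * 2 ^ W₁ / T) * (1 + X.L) + 9 * EB.hs T₁) =
              1 / (2 * δ) * ∑ k ∈ Icc 1 H, wlg X (fun n => tq f q (2 ^ w) k n ^ 2) +
              H * ((δ / 2 + 10 * 2 ^ W₁ / T) * (1 + X.L) + 9 * EB.hs T₁) := by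
            rw [mul_sum]
            have e3 : (H : ℝ) * ((δ / 2 + 10 * 2 ^ W₁ / T) * (1 + X.L) + 9 * EB.hs T₁) =
                ∑ _k ∈ Icc 1 H, ((δ / 2 + 10 * 2 ^ W₁ / T) * (1 + X.L) + 9 * EB.hs T₁) := by
              rw [sum_const, Nat.card_Icc, nsmul_eq_mul, Nat.add_sub_cancel]
            rw [e3, ← sum_add_distrib]
            refine sum_congr rfl fun k _ => ?_
            ring
          rw [e2]
          ring
  refine hall.trans ?_
  -- sizes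
  have hA : 1 / (2 * δ) * ∑ k ∈ Icc 1 H, wlg X (fun n => ∑ q ∈ EB.QQ w, 1 / (q : ℝ) *
      tq f q (2 ^ w) k n ^ 2) ≤ ε / 8 * X.L := by
    calc 1 / (2 * δ) * ∑ k ∈ Icc 1 H, wlg X (fun n => ∑ q ∈ EB.QQ w, 1 / (q : ℝ) *
        tq f q (2 ^ w) k n ^ 2) ≤ 1 / (2 * δ) * (δ * ε / 4 * X.L) :=
          mul_le_mul_of_nonneg_left hG (by positivity)
      _ = ε / 8 * X.L := by
          field_simp
          ring
  have hsum0 : 0 ≤ ∑ q ∈ EB.QQ w, 1 / (q : ℝ) := sum_nonneg fun q _ => by positivity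
  have hhs : EB.hs T₁ ≤ 1 + T₁ := by
    refine (EB.hs_le T₁).trans ?_
    have h3 : Real.log T₁ ≤ T₁ := by
      rcases Nat.eq_zero_or_pos T₁ with h | h
      · subst h
        simp
      · exact (Real.log_le_sub_one_of_pos (by exact_mod_cast h)).trans (by linarith)
    linarith
  have hhs0 := EB.hs_nonneg T₁
  have hTsm : 96 * (((H : ℝ) + 1) * W) * 2 ^ W₁ ≤ ε * T := by
    have h1 : 96 * (((H : ℝ) + 1) * W) * 2 ^ W₁ / ε ≤ T :=
      hT₀.le.trans (by exact_mod_cast hTT)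
    rw [div_le_iff₀ hε] at h1
    linarith
  have hB1 : W * (((H : ℝ) + 1) * ((δ / 2 + 10 * 2 ^ W₁ / T) * (2 * X.L))) ≤
      (ε / 8 + ε * 20 / 96) * X.L := by
    have h1 : ((H : ℝ) + 1) * W * δ = ε / 8 := by
      rw [hδ]
      field_simp
    have h2 : ((H : ℝ) + 1) * W * (10 * 2 ^ W₁ / T) ≤ ε * 10 / 96 := by
      rw [← mul_div_assoc, div_le_iff₀ hTr]
      nlinarith
    have h3 : 0 ≤ X.L := by linarith
    calc W * (((H : ℝ) + 1) * ((δ / 2 + 10 * 2 ^ W₁ / T) * (2 * X.L)))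
        = (((H : ℝ) + 1) * W * δ + 2 * (((H : ℝ) + 1) * W * (10 * 2 ^ W₁ / T))) * X.L := by ring
      _ ≤ (ε / 8 + 2 * (ε * 10 / 96)) * X.L := by
          apply mul_le_mul_of_nonneg_right _ h3
          linarith
      _ = _ := by ring
  have hB2 : W * (((H : ℝ) + 1) * (9 * EB.hs T₁)) ≤ ε / 8 * X.L := by
    have h1 : 72 * (((H : ℝ) + 1) * W) * (1 + T₁) / ε ≤ X.L := by
      linarith [abs_nonneg X₁]
    rw [div_le_iff₀ hε] at h1
    have h2 : ((H : ℝ) + 1) * W * EB.hs T₁ ≤ ((H : ℝ) + 1) * W * (1 + T₁) :=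
      mul_le_mul_of_nonneg_left hhs hHW.le
    nlinarith
  have hB3 : W * (2 * (|B| * (3 * (1 + 2 ^ W₁) + 2))) ≤ ε / 8 * X.L := by
    have h1 : 16 * W * (|B| * (3 * (1 + 2 ^ W₁) + 2)) / ε ≤ X.L := by
      linarith [abs_nonneg X₁]
    rw [div_le_iff₀ hε] at h1
    nlinarith
  have hC : (∑ q ∈ EB.QQ w, 1 / (q : ℝ)) * (H * ((δ / 2 + 10 * 2 ^ W₁ / T) * (1 + X.L) +
      9 * EB.hs T₁) + 2 * (|B| * (3 * (1 + 2 ^ W₁) + 2))) ≤
      W * (((H : ℝ) + 1) * ((δ / 2 + 10 * 2 ^ W₁ / T) * (2 * X.L)) +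
        ((H : ℝ) + 1) * (9 * EB.hs T₁) + 2 * (|B| * (3 * (1 + 2 ^ W₁) + 2))) := by
    have h1 : 0 ≤ (δ / 2 + 10 * 2 ^ W₁ / (T : ℝ)) := by positivity
    have h2 : (H : ℝ) * ((δ / 2 + 10 * 2 ^ W₁ / T) * (1 + X.L) + 9 * EB.hs T₁) ≤
        ((H : ℝ) + 1) * ((δ / 2 + 10 * 2 ^ W₁ / T) * (2 * X.L)) +
          ((H : ℝ) + 1) * (9 * EB.hs T₁) := by
      rw [← mul_add]
      apply mul_le_mul (by linarith)
      · have h3 : (δ / 2 + 10 * 2 ^ W₁ / (T : ℝ)) * (1 + X.L) ≤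
            (δ / 2 + 10 * 2 ^ W₁ / T) * (2 * X.L) :=
          mul_le_mul_of_nonneg_left (by linarith) h1
        linarith
      · have h3 : 0 ≤ (δ / 2 + 10 * 2 ^ W₁ / (T : ℝ)) * (1 + X.L) :=
          mul_nonneg h1 (by linarith)
        linarith
      · positivity
    have h3 : 0 ≤ (H : ℝ) * ((δ / 2 + 10 * 2 ^ W₁ / T) * (1 + X.L) + 9 * EB.hs T₁) +
        2 * (|B| * (3 * (1 + 2 ^ W₁) + 2)) := by
      have h4 : 0 ≤ (δ / 2 + 10 * 2 ^ W₁ / (T : ℝ)) * (1 + X.L) :=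
        mul_nonneg h1 (by linarith)
      have := abs_nonneg B
      positivity
    exact mul_le_mul (hW w) (by linarith) h3 hW0.le
  have hfin : W * (((H : ℝ) + 1) * ((δ / 2 + 10 * 2 ^ W₁ / T) * (2 * X.L)) +
      ((H : ℝ) + 1) * (9 * EB.hs T₁) + 2 * (|B| * (3 * (1 + 2 ^ W₁) + 2))) ≤
      (3 * ε / 8 + ε * 20 / 96) * X.L := by
    have e : W * (((H : ℝ) + 1) * ((δ / 2 + 10 * 2 ^ W₁ / T) * (2 * X.L)) +
      ((H : ℝ) + 1) * (9 * EB.hs T₁) + 2 * (|B| * (3 * (1 + 2 ^ W₁) + 2))) =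
      W * (((H : ℝ) + 1) * ((δ / 2 + 10 * 2 ^ W₁ / T) * (2 * X.L))) +
      W * (((H : ℝ) + 1) * (9 * EB.hs T₁)) + W * (2 * (|B| * (3 * (1 + 2 ^ W₁) + 2))) := by ring
    rw [e]
    linarith
  have hLε : 0 ≤ ε * X.L := by positivity
  linarith

end Pool.Agent.H3.WN
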