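import Pool.Agent.H3.QP.EBH

/-!
# Local autocorrelations of completely multiplicative functions (MP_c59857_nt), finite form of the
invariance under dilation
-/

set_option autoImplicit false

namespace Pool.Agent.H3.WN

open Finset Pool.Agent.H6.N4D Pool.Agent.H93 Pool.Agent.H93.ES Pool.Agent.H93.DE
  Pool.Agent.H28.NW Pool.Agent.H87.QP

/-- signs whose products at two points do not change under dilation by primes -/
structure Dl (f : ℕ → ℝ) : Prop where
  pm : ∀ n, 1 ≤ n → f n = 1 ∨ f n = -1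
  dl : ∀ q m h : ℕ, q.Prime → 1 ≤ m → f (q * m) * f (q * (m + h)) = f m * f (m + h)

lemma Dl.abs {f : ℕ → ℝ} (hf : Dl f) {n : ℕ} (hn : 1 ≤ n) : |f n| = 1 := by
  rcases hf.pm n hn with h | h <;> rw [h] <;> norm_num

/-- the mean over `(n, n + T]` of a function bounded by one -/
lemma rh_le {f : ℕ → ℝ} (hf : Dl f) (T n a : ℕ) : |rh f T n a| ≤ 1 := by
  unfold rh
  rw [abs_div, Nat.abs_cast]
  refine div_le_one_of_le₀ ?_ (Nat.cast_nonneg _)
  refine (abs_sum_le_sum_abs _ _).trans ?_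
  calc ∑ m ∈ Ioc n (n + T), |f m * f (m + a)| ≤ ∑ m ∈ Ioc n (n + T), (1 : ℝ) :=
        sum_le_sum fun m hm => by
          have h2 := (mem_Ioc.1 hm).1
          rw [abs_mul, hf.abs (by omega), hf.abs (by omega), mul_one]
    _ = T := by simp

/-- the sum over the multiples of `q` -/
lemma sum_mult (q n N : ℕ) (hq : 0 < q) (F : ℕ → ℝ) :
    ∑ m ∈ Ioc n N, (if q ∣ m then F m else 0) = ∑ m ∈ Ioc (n / q) (N / q), F (q * m) := by
  rw [← sum_filter]
  symm
  refine sum_nbij (fun m => q * m) ?_ ?_ ?_ ?_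
  · intro m hm
    rw [mem_Ioc] at hm
    rw [mem_filter, mem_Ioc]
    have h1 := (Nat.div_lt_iff_lt_mul hq).1 hm.1
    have h2 := (Nat.le_div_iff_mul_le hq).1 hm.2
    refine ⟨⟨?_, ?_⟩, dvd_mul_right q m⟩
    · rw [mul_comm]
      exact h1
    · show q * m ≤ N
      rw [mul_comm]
      exact h2
  · intro a _ b _ hab
    exact Nat.eq_of_mul_eq_mul_left hq hab
  · intro m hm
    rw [mem_coe, mem_filter, mem_Ioc] at hm
    obtain ⟨⟨h1, h2⟩, k, rfl⟩ := hm
    refine ⟨k, ?_, rfl⟩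
    rw [mem_coe, mem_Ioc]
    refine ⟨(Nat.div_lt_iff_lt_mul hq).2 ?_, (Nat.le_div_iff_mul_le hq).2 ?_⟩
    · rw [mul_comm]
      exact h1
    · rw [mul_comm]
      exact h2
  · intro m _
    rfl

/-- dilation -/
theorem dil {f : ℕ → ℝ} (hf : Dl f) {q T : ℕ} (hq : q.Prime) (hqT : q ≤ T) (n h : ℕ) :
    |rh f (T / q) (n / q) h - rh f T n (q * h)| ≤ |tq f q T h n| + 4 * q / T := by
  have hq0 : 0 < q := hq.pos
  have hT0 : 0 < T := hq0.trans_le hqT
  have hqR : (0 : ℝ) < q := by exact_mod_cast hq0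
  have hTR : (0 : ℝ) < T := by exact_mod_cast hT0
  have hT' : 1 ≤ T / q := (Nat.one_le_div_iff hq0).2 hqT
  have hT'R : (0 : ℝ) < ((T / q : ℕ) : ℝ) := by exact_mod_cast hT'
  set g : ℕ → ℝ := fun m => f m * f (m + h) with hg
  have hg1 : ∀ m, 1 ≤ m → |g m| ≤ 1 := fun m hm => by
    rw [hg]
    simp only
    rw [abs_mul, hf.abs hm, hf.abs (by omega), mul_one]
  have h1 : (T : ℝ) * (tq f q T h n + rh f T n (q * h)) =
      q * ∑ m ∈ Ioc (n / q) ((n + T) / q), g m := by
    have e1 : (T : ℝ) * (tq f q T h n + rh f T n (q * h)) =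
        ∑ m ∈ Ioc n (n + T), (if q ∣ m then (q : ℝ) * (f m * f (m + q * h)) else 0) := by
      unfold tq rh
      rw [← add_div, mul_div_cancel₀ _ hTR.ne', ← sum_add_distrib]
      refine sum_congr rfl fun m _ => ?_
      unfold EB.D
      split_ifs <;> ring
    rw [e1, sum_mult q n (n + T) hq0 (fun m => (q : ℝ) * (f m * f (m + q * h))), mul_sum]
    refine sum_congr rfl fun m hm => ?_
    rw [mem_Ioc] at hm
    have hm1 : 1 ≤ m := (Nat.zero_le _).trans_lt hm.1
    have e2 : q * m + q * h = q * (m + h) := by ring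
    rw [e2, hf.dl q m h hq hm1]
  -- the end
  have h2 : |∑ m ∈ Ioc (n / q) ((n + T) / q), g m -
      ∑ m ∈ Ioc (n / q) (n / q + T / q), g m| ≤ 1 := by
    have h3 : (n + T) / q = n / q + T / q ∨ (n + T) / q = n / q + T / q + 1 := by
      have h4 := Nat.add_div (a := n) (b := T) hq0
      rw [h4]
      split_ifs
      · right
        rfl
      · left
        rfl
    rcases h3 with h3 | h3
    · rw [h3, sub_self, abs_zero]
      exact zero_le_one
    · rw [h3, sum_Ioc_succ_top (by omega), add_sub_cancel_left]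
      exact hg1 _ (Nat.le_add_left 1 _)
  have h3 : ((T / q : ℕ) : ℝ) * rh f (T / q) (n / q) h =
      ∑ m ∈ Ioc (n / q) (n / q + T / q), g m := by
    unfold rh
    rw [mul_div_cancel₀ _ hT'R.ne']
  have h5 : |(T : ℝ) - q * ((T / q : ℕ) : ℝ)| ≤ q := by
    have h6 : T ≤ q * (T / q) + q := by
      have h7 := Nat.div_add_mod T q
      have h8 := Nat.mod_lt T hq0
      omega
    have h7 : q * (T / q) ≤ T := Nat.mul_div_le T q
    have h8 : (T : ℝ) ≤ q * ((T / q : ℕ) : ℝ) + q := by exact_mod_cast h6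
    have h9 : (q : ℝ) * ((T / q : ℕ) : ℝ) ≤ T := by exact_mod_cast h7
    rw [abs_le]
    constructor <;> linarith
  have h6 : |rh f (T / q) (n / q) h| ≤ 1 := rh_le hf _ _ _
  have h7 : |(T : ℝ) * (rh f (T / q) (n / q) h - rh f T n (q * h))| ≤
      T * |tq f q T h n| + 2 * q := by
    have e : (T : ℝ) * (rh f (T / q) (n / q) h - rh f T n (q * h)) =
        (T : ℝ) * tq f q T h n + (T - q * ((T / q : ℕ) : ℝ)) * rh f (T / q) (n / q) h -
          q * (∑ m ∈ Ioc (n / q) ((n + T) / q), g m -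
            ∑ m ∈ Ioc (n / q) (n / q + T / q), g m) := by
      rw [← h3]
      linear_combination (-1) * h1
    rw [e]
    refine (abs_sub _ _).trans ?_
    refine (add_le_add_left (abs_add_le _ _) _).trans ?_
    rw [abs_mul, abs_mul, abs_mul, Nat.abs_cast, Nat.abs_cast]
    have h8 := mul_le_mul h5 h6 (abs_nonneg _) hqR.le
    have h9 := mul_le_mul_of_nonneg_left h2 hqR.le
    linarith
  rw [abs_mul, Nat.abs_cast] at h7
  have h8 : |rh f (T / q) (n / q) h - rh f T n (q * h)| ≤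
      (T * |tq f q T h n| + 2 * q) / T := by
    rw [le_div_iff₀ hTR]
    linarith
  have h9 : (T * |tq f q T h n| + 2 * q) / (T : ℝ) = |tq f q T h n| + 2 * q / T := by
    field_simp
  rw [h9] at h8
  have h10 : 2 * (q : ℝ) / T ≤ 4 * q / T := by
    apply div_le_div_of_nonneg_right _ hTR.le
    linarith
  linarith

lemma sum_Ioc_shift (F : ℕ → ℝ) (n N : ℕ) :
    ∑ x ∈ Ioc n (n + N), F x = ∑ t ∈ range N, F (n + 1 + t) := by
  induction N with
  | zero => simp
  | succ N ih =>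
    rw [sum_range_succ, ← ih, ← add_assoc, sum_Ioc_succ_top (by omega)]
    congr 2
    omega

/-- a long window is a mean of short windows -/
theorem tq_long {f : ℕ → ℝ} (hf : Dl f) {q S T : ℕ} (hq : 1 ≤ q) (hqS : q ≤ S) (hST : S ≤ T)
    (n h : ℕ) : |tq f q T h n| ≤ (∑ u ∈ range T, |tq f q S h (n + u)|) / T + 6 * S / T := by
  have hS : (0 : ℝ) < S := by exact_mod_cast (by omega : 0 < S)
  have hT : (0 : ℝ) < T := by exact_mod_cast (by omega : 0 < T)
  set G : ℕ → ℝ := fun m => f m * f (m + q * h) * EB.D q m with hG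
  have hGb : ∀ a, ∑ m ∈ Ioc a (a + S), |G m| ≤ 3 * S := by
    intro a
    refine le_trans (sum_le_sum fun m hm => ?_) (Pool.Agent.H40.ES.D_sum q a S hq hqS)
    have h2 := (mem_Ioc.1 hm).1
    rw [hG]
    simp only
    rw [abs_mul, abs_mul, hf.abs (by omega), hf.abs (by omega), one_mul, one_mul]
  -- the sum over the places inside the short windows
  have h1 : ∑ u ∈ range T, (S : ℝ) * tq f q S h (n + u) =
      ∑ s ∈ range S, ∑ m ∈ Ioc (n + s) (n + s + T), G m := by
    have h2 : ∀ u, (S : ℝ) * tq f q S h (n + u) = ∑ s ∈ range S, G (n + u + 1 + s) := by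
      intro u
      unfold tq
      rw [mul_div_cancel₀ _ hS.ne', sum_Ioc_shift]
    have h3 : ∀ s, ∑ m ∈ Ioc (n + s) (n + s + T), G m = ∑ u ∈ range T, G (n + s + 1 + u) := by
      intro s
      rw [sum_Ioc_shift]
    rw [sum_congr rfl fun u _ => h2 u, sum_congr rfl fun s _ => h3 s, sum_comm]
    refine sum_congr rfl fun s _ => sum_congr rfl fun u _ => ?_
    congr 1
    omega
  have h4 : ∀ s ∈ range S, |∑ m ∈ Ioc (n + s) (n + s + T), G m - ∑ m ∈ Ioc n (n + T), G m| ≤
      6 * S := by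
    intro s hs
    rw [mem_range] at hs
    have e1 : ∑ m ∈ Ioc n (n + s), G m + ∑ m ∈ Ioc (n + s) (n + s + T), G m =
        ∑ m ∈ Ioc n (n + s + T), G m :=
      sum_Ioc_consecutive _ (by omega) (by omega)
    have e2 : ∑ m ∈ Ioc n (n + T), G m + ∑ m ∈ Ioc (n + T) (n + s + T), G m =
        ∑ m ∈ Ioc n (n + s + T), G m :=
      sum_Ioc_consecutive _ (by omega) (by omega)
    have e3 : |∑ m ∈ Ioc n (n + s), G m| ≤ 3 * S := by
      refine (abs_sum_le_sum_abs _ _).trans (le_trans ?_ (hGb n))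
      exact sum_le_sum_of_subset_of_nonneg (Ioc_subset_Ioc_right (by omega))
        fun _ _ _ => abs_nonneg _
    have e4 : |∑ m ∈ Ioc (n + T) (n + s + T), G m| ≤ 3 * S := by
      refine (abs_sum_le_sum_abs _ _).trans (le_trans ?_ (hGb (n + T)))
      exact sum_le_sum_of_subset_of_nonneg (Ioc_subset_Ioc_right (by omega))
        fun _ _ _ => abs_nonneg _
    have e5 : ∑ m ∈ Ioc (n + s) (n + s + T), G m - ∑ m ∈ Ioc n (n + T), G m =
        ∑ m ∈ Ioc (n + T) (n + s + T), G m - ∑ m ∈ Ioc n (n + s), G m := by linarith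
    rw [e5]
    refine (abs_sub _ _).trans ?_
    linarith
  have h5 : (S : ℝ) * (T * tq f q T h n) = S * ∑ m ∈ Ioc n (n + T), G m := by
    unfold tq
    rw [mul_div_cancel₀ _ hT.ne']
  have h6 : |∑ u ∈ range T, (S : ℝ) * tq f q S h (n + u) - S * (T * tq f q T h n)| ≤
      S * (6 * S) := by
    have e : (S : ℝ) * ∑ m ∈ Ioc n (n + T), G m = ∑ _s ∈ range S, ∑ m ∈ Ioc n (n + T), G m := by
      rw [sum_const, card_range, nsmul_eq_mul]
    rw [h1, h5, e, ← sum_sub_distrib]
    refine (abs_sum_le_sum_abs _ _).trans ((sum_le_sum h4).trans (le_of_eq ?_))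
    rw [sum_const, card_range, nsmul_eq_mul]
  have h7 : (S : ℝ) * |T * tq f q T h n| ≤
      S * (∑ u ∈ range T, |tq f q S h (n + u)| + 6 * S) := by
    have e1 : (S : ℝ) * |T * tq f q T h n| = |S * (T * tq f q T h n)| := by
      rw [abs_mul (S : ℝ), Nat.abs_cast]
    have e2 : |∑ u ∈ range T, (S : ℝ) * tq f q S h (n + u)| ≤
        S * ∑ u ∈ range T, |tq f q S h (n + u)| := by
      rw [← mul_sum, abs_mul, Nat.abs_cast]
      exact mul_le_mul_of_nonneg_left (abs_sum_le_sum_abs _ _) hS.le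
    have e3 := abs_sub_abs_le_abs_sub ((S : ℝ) * (T * tq f q T h n))
      (∑ u ∈ range T, (S : ℝ) * tq f q S h (n + u))
    rw [abs_sub_comm] at e3
    rw [e1]
    linarith
  have h8 : |(T : ℝ) * tq f q T h n| ≤ ∑ u ∈ range T, |tq f q S h (n + u)| + 6 * S :=
    le_of_mul_le_mul_left h7 hS
  rw [abs_mul, Nat.abs_cast] at h8
  rw [← add_div, le_div_iff₀ hT]
  linarith

end Pool.Agent.H3.WN
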