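import Pool.Agent.H21.WN.Targets
import Pool.Agent.H40.ES.BK

/-!
# White noise (MP_c59857_nt), row TQL: long windows, logarithmic means
-/

set_option autoImplicit false

namespace Pool.Agent.H3.WN

open Finset Pool.Agent.H6.N4D Pool.Agent.H93 Pool.Agent.H93.ES Pool.Agent.H93.DE
  Pool.Agent.H28.NW Pool.Agent.H87.QP

lemma tq_le_three {lam : ℕ → ℝ} (hl : ∀ n, |lam n| ≤ 1) {q T : ℕ} (h n : ℕ)
    (hq : 1 ≤ q) (hqT : q ≤ T) : |tq lam q T h n| ≤ 3 := by
  unfold tq
  have hT : (0 : ℝ) < T := by
    have : 0 < T := by omega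
    exact_mod_cast this
  rw [abs_div, abs_of_pos hT, div_le_iff₀ hT]
  refine (abs_sum_le_sum_abs _ _).trans ((sum_le_sum fun m _ => ?_).trans
    (Pool.Agent.H40.ES.D_sum q n T hq hqT))
  rw [abs_mul, abs_mul]
  calc |lam m| * |lam (m + q * h)| * |EB.D q m| ≤ 1 * 1 * |EB.D q m| := by
        gcongr
        · exact hl _
        · exact hl _
    _ = _ := by ring

theorem pf_TQL (hW : Pool.Agent.H21.WN.T_TQW) : Pool.Agent.H21.WN.T_TQL := by
  intro X lam q T T' h hl hq hqT hTT
  have hT' : (0 : ℝ) < T' := by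
    have : 0 < T' := by omega
    exact_mod_cast this
  have h1 : wlg X (fun n => |tq lam q T' h n|) ≤
      wlg X (fun n => (∑ u ∈ Ioc n (n + T'), |tq lam q T h u|) / T' + 6 * T / T') :=
    wlg_mono fun n _ => hW lam q T T' h n hl hq hqT hTT
  have h2 : wlg X (fun n => (∑ u ∈ Ioc n (n + T'), |tq lam q T h u|) / T') ≤
      wlg X (fun n => |tq lam q T h n|) + 9 * EB.hs T' := by
    have e0 : ∀ n, ∑ u ∈ Ioc n (n + T'), |tq lam q T h u| =
        ∑ u ∈ range T', |tq lam q T h (n + (u + 1))| := by
      intro n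
      apply sum_nbij' (fun u => u - n - 1) (fun u => n + (u + 1))
      · intro u hu; rw [mem_Ioc] at hu; rw [mem_range]; omega
      · intro u hu; rw [mem_range] at hu; rw [mem_Ioc]; omega
      · intro u hu; rw [mem_Ioc] at hu; show n + (u - n - 1 + 1) = u; omega
      · intro u _; show n + (u + 1) - n - 1 = u; omega
      · intro u hu
        rw [mem_Ioc] at hu
        have e : n + (u - n - 1 + 1) = u := by omega
        show |tq lam q T h u| = |tq lam q T h (n + (u - n - 1 + 1))|
        rw [e]
    have e : wlg X (fun n => (∑ u ∈ Ioc n (n + T'), |tq lam q T h u|) / T') =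
        (∑ u ∈ range T', wlg X (fun n => |tq lam q T h (n + (u + 1))|)) / T' := by
      rw [div_eq_inv_mul, ← wlg_sum, ← wlg_mul]
      congr 1
      funext n
      rw [e0 n, div_eq_inv_mul]
    rw [e, div_le_iff₀ hT']
    calc ∑ u ∈ range T', wlg X (fun n => |tq lam q T h (n + (u + 1))|)
        ≤ ∑ _u ∈ range T', (wlg X (fun n => |tq lam q T h n|) + 9 * EB.hs T') := by
          refine sum_le_sum fun u hu => ?_
          rw [mem_range] at hu
          have h3 := wlg_shift X (u + 1) (fun n => |tq lam q T h n|) (c := 3) fun n => by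
            rw [abs_abs]
            exact tq_le_three hl h n hq hqT
          have h4 := EB.hs_mono (i := u + 1) (j := T') hu
          have h5 := (abs_le.1 h3).2
          linarith
      _ = _ := by
          rw [sum_const, card_range, nsmul_eq_mul]
          ring
  rw [wlg_add, wlg_const] at h1
  have h4 := wlg_one_le X
  have h5 : 6 * (T : ℝ) / T' * wlg X (fun _ => 1) ≤ 6 * T / T' * (1 + X.L) :=
    mul_le_mul_of_nonneg_left h4 (by positivity)
  have h6 := EB.hs_le T'
  have h7 : 0 ≤ Real.log T' := Real.log_natCast_nonneg T'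
  linarith

end Pool.Agent.H3.WN
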